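import Pool.Agent.Y223.G.Stm13
import Pool.Agent.Y614.WC.A

/-!
# The graded algebra at a wild prime is regular (project G, S_ECR)
-/

set_option autoImplicit false
set_option linter.unusedSectionVars false
set_option linter.overlappingInstances false

namespace Pool.Agent.Y448.H

open Pool.Agent.Y223.G IsLocalRing Pool.Agent.W418.LU2 Pool.Agent.Y614.WC

section basics

variable {k O K Ω : Type} [CommRing k] [CommRing O] [Field K] [Algebra k O] [Algebra O K]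
  [Algebra k K] [IsScalarTower k O K]

/-- a monomial -/
lemma prod3 (z : Fin (2 + 1) → K) (a : Fin (2 + 1) → ℕ) :
    ∏ j, z j ^ a j = z 0 ^ a 0 * z 1 ^ a 1 * z 2 ^ a 2 := by
  rw [Fin.prod_univ_three]

lemma sum3 (a : Fin (2 + 1) → ℕ) : ∑ j, a j = a 0 + a 1 + a 2 := by
  rw [Fin.sum_univ_three]

lemma WE_pos (l : ℕ) {B : Set Ω} {ω : Ω} (h : ω ∈ B) : WE l B ω = ![l, 0, 3 * l] := by
  unfold WE
  rw [if_pos h]

lemma WE_neg (l : ℕ) {B : Set Ω} {ω : Ω} (h : ω ∉ B) : WE l B ω = 0 := by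
  unfold WE
  rw [if_neg h]

lemma wsum (l : ℕ) {B : Set Ω} {ω : Ω} (h : ω ∈ B) (a : Fin (2 + 1) → ℕ) :
    ∑ j, WE l B ω j * a j = l * a 0 + 3 * l * a 2 := by
  rw [WE_pos l h, Fin.sum_univ_three]
  simp

lemma gen_mem (𝔓 : Ideal O) (l : ℕ) (B : Set Ω) (z : Ω → Fin (2 + 1) → K) (d : ℕ) (Φ : Ω → K)
    {ω : Ω} (hω : ω ∈ B) (a b c : ℕ) (h : a + b + c = d) :
    hm ((l * a + 3 * l * c : ℕ) : ℤ) (z ω 0 ^ a * z ω 1 ^ b * z ω 2 ^ c / Φ ω) ∈
      RW k 𝔓 2 (WE l B) z d Φ := by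
  refine Algebra.subset_adjoin (Or.inr ⟨ω, ![a, b, c], ?_, ?_⟩)
  · rw [sum3]
    exact h
  · rw [prod3, wsum l hω]
    rfl

lemma AF_mem (z : Fin (2 + 1) → K) (d : ℕ) (F : K) (a b c : ℕ) (h : a + b + c = d) :
    z 0 ^ a * z 1 ^ b * z 2 ^ c / F ∈ AF O z d F := by
  refine Algebra.subset_adjoin ⟨_, ⟨![a, b, c], ?_, rfl⟩, ?_⟩
  · rw [sum3]
    exact h
  · rw [prod3]
    rfl

/-- the exponents of a form -/
lemma finite_exp (m d : ℕ) : {a : Fin (m + 1) → ℕ | ∑ i, a i = d}.Finite := by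
  refine (Set.Finite.pi' (t := fun _ : Fin (m + 1) => Set.Iic d) fun _ => Set.finite_Iic d).subset ?_
  intro a ha i
  have h1 : a i ≤ ∑ i, a i := Finset.single_le_sum (fun _ _ => Nat.zero_le _) (Finset.mem_univ i)
  have h2 : ∑ i, a i = d := ha
  exact h1.trans h2.le

lemma finite_MN {m : ℕ} (z : Fin (m + 1) → K) (d : ℕ) : (MN z d).Finite := by
  refine ((finite_exp m d).image fun a => ∏ i, z i ^ a i).subset ?_
  rintro _ ⟨a, ha, rfl⟩
  exact ⟨a, ha, rfl⟩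

lemma AF_fg {m : ℕ} (z : Fin (m + 1) → K) (d : ℕ) (F : K) : (AF O z d F).FG := by
  refine Subalgebra.fg_def.2 ⟨{y | ∃ x ∈ MN z d, y = x / F}, ?_, rfl⟩
  refine ((finite_MN z d).image fun x => x / F).subset ?_
  rintro _ ⟨x, hx, rfl⟩
  exact ⟨x, hx, rfl⟩

lemma iSup_fg [Finite Ω] (A : Ω → Subalgebra O K) (hA : ∀ ω, (A ω).FG) : (⨆ ω, A ω).FG := by
  choose S hS hS' using fun ω => Subalgebra.fg_def.1 (hA ω)
  refine Subalgebra.fg_def.2 ⟨⋃ ω, S ω, Set.finite_iUnion hS, ?_⟩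
  rw [Algebra.adjoin_iUnion]
  exact iSup_congr hS'

end basics

section alg

/-- powers in the weighted filtration -/
lemma FI_pow {B : Type} [CommRing B] {ι : Type} [Fintype ι] (X : ι → B) (w : ι → ℕ) {n : ℕ} {x : B}
    (hx : x ∈ FI X w n) (m : ℕ) : x ^ m ∈ FI X w (n * m) := by
  induction m with
  | zero =>
    rw [mul_zero, FI_zero]
    trivial
  | succ m ih =>
    rw [pow_succ, Nat.mul_succ]
    exact FI_mul _ _ ih hx

lemma mono_FI {B : Type} [CommRing B] {ι : Type} [Fintype ι] (X : ι → B) (wt : ι → ℕ) (l : ℕ)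
    {x w y m : B} (a c : ℕ) (hx : x ∈ FI X wt l) (hw : w ∈ FI X wt (3 * l)) (hy : IsUnit y)
    (h : m * y ^ (a + c) = x ^ a * w ^ c * y) : m ∈ FI X wt (l * a + 3 * l * c) := by
  have h1 : m * y ^ (a + c) ∈ FI X wt (l * a + 3 * l * c) := by
    rw [h]
    exact Ideal.mul_mem_right _ _ (FI_mul _ _ (FI_pow X wt hx a) (FI_pow X wt hw c))
  exact (Ideal.mul_unit_mem_iff_mem _ (hy.pow (a + c))).1 h1

/-- the Weierstrass equation near the origin -/
lemma weier_id {O K : Type} [CommRing O] [Field K] [Algebra O K] {z : Fin (2 + 1) → K}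
    {Wc : WeierstrassCurve O} (h : EC0 O K z Wc) (t : K) :
    t * ((z 1 * t) ^ 2 + algebraMap O K Wc.a₁ * (z 0 * t) * (z 1 * t) +
      algebraMap O K Wc.a₃ * (z 1 * t) * t - algebraMap O K Wc.a₂ * (z 0 * t) ^ 2 -
      algebraMap O K Wc.a₄ * (z 0 * t) * t - algebraMap O K Wc.a₆ * t ^ 2) = (z 0 * t) ^ 3 := by
  linear_combination t ^ 3 * h.eq

/-- the monomials near the origin -/
lemma mono_id {K : Type} [Field K] {z : Fin (2 + 1) → K} (h2 : z 2 = 1) {F : K} {a b c e : ℕ}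
    (h : a + b + c = e + 1) :
    z 0 ^ a * z 1 ^ b * z 2 ^ c / F * (z 1 * (z 1 ^ e / F)) ^ (a + c) =
      (z 0 * (z 1 ^ e / F)) ^ a * (z 1 ^ e / F) ^ c * (z 1 * (z 1 ^ e / F)) := by
  obtain ⟨t, ht⟩ : ∃ t : K, t = z 1 ^ e / F := ⟨_, rfl⟩
  rw [← ht, h2, one_pow, mul_one]
  have h3 : z 1 ^ b * z 1 ^ (a + c) = z 1 * z 1 ^ e := by
    rw [← pow_add, ← pow_succ']
    congr 1
    omega
  calc z 0 ^ a * z 1 ^ b / F * (z 1 * t) ^ (a + c)
      = z 0 ^ a * (z 1 ^ b * z 1 ^ (a + c)) / F * t ^ (a + c) := by rw [mul_pow]; ring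
    _ = z 0 ^ a * z 1 * (z 1 ^ e / F) * t ^ (a + c) := by rw [h3]; ring
    _ = _ := by
      rw [← ht, pow_add, mul_pow]
      ring

end alg

section loc

variable {k O K Ω : Type} [CommRing k] [CommRing O] [IsDomain O] [IsDedekindDomain O] [Field K]
  [Algebra k O] [Algebra O K] [Algebra k K] [IsScalarTower k O K]

lemma y_notMem {z : Fin (2 + 1) → K} {d : ℕ} {F : K} (hF : F ∈ FS O z d) (hF0 : F ≠ 0)
    {C : Subalgebra O K} (hC : AF O z d F ≤ C) (Q : Ideal C) [hQ : Q.IsPrime]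
    (hq : ∀ a : Fin (2 + 1) → ℕ, ∑ j, a j = d → a 0 + a 2 ≠ 0 →
      ∀ h : (∏ j, z j ^ a j) / F ∈ C, (⟨_, h⟩ : C) ∈ Q) (h : z 1 ^ d / F ∈ C) :
    (⟨_, h⟩ : C) ∉ Q := by
  intro hy
  have key : ∀ x ∈ FS O z d, ∃ h : x / F ∈ C, (⟨x / F, h⟩ : C) ∈ Q := by
    intro x hx
    unfold FS at hx
    induction hx using Submodule.span_induction with
    | mem x hx =>
      obtain ⟨a, ha, rfl⟩ := hx
      have hm : (∏ j, z j ^ a j) / F ∈ C := hC (Algebra.subset_adjoin ⟨_, ⟨a, ha, rfl⟩, rfl⟩)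
      refine ⟨hm, ?_⟩
      by_cases h0 : a 0 + a 2 = 0
      · have h1 : ∏ j, z j ^ a j = z 1 ^ d := by
          rw [prod3]
          rw [sum3] at ha
          have h3 : a 0 = 0 := by omega
          have h4 : a 2 = 0 := by omega
          have h5 : a 1 = d := by omega
          rw [h3, h4, h5, pow_zero, pow_zero, one_mul, mul_one]
        have h2 : (⟨(∏ j, z j ^ a j) / F, hm⟩ : C) = ⟨z 1 ^ d / F, h⟩ := by
          apply Subtype.ext
          change (∏ j, z j ^ a j) / F = z 1 ^ d / F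
          rw [h1]
        rw [h2]
        exact hy
      · exact hq a ha h0 hm
    | zero =>
      have h1 : (0 : K) / F = 0 := zero_div F
      have h2 : (0 : K) / F ∈ C := by rw [h1]; exact C.zero_mem
      refine ⟨h2, ?_⟩
      have h3 : (⟨(0 : K) / F, h2⟩ : C) = 0 := Subtype.ext h1
      rw [h3]
      exact Q.zero_mem
    | add x y _ _ hx hy =>
      obtain ⟨hx, hx'⟩ := hx
      obtain ⟨hy, hy'⟩ := hy
      have h1 : (x + y) / F = x / F + y / F := add_div x y F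
      have h2 : (x + y) / F ∈ C := by rw [h1]; exact C.add_mem hx hy
      refine ⟨h2, ?_⟩
      have h3 : (⟨(x + y) / F, h2⟩ : C) = ⟨x / F, hx⟩ + ⟨y / F, hy⟩ := Subtype.ext h1
      rw [h3]
      exact Q.add_mem hx' hy'
    | smul r x _ hx =>
      obtain ⟨hx, hx'⟩ := hx
      have h1 : (r • x) / F = r • (x / F) := smul_div_assoc r x F
      have h2 : (r • x) / F ∈ C := by rw [h1]; exact C.smul_mem hx r
      refine ⟨h2, ?_⟩
      have h3 : (⟨(r • x) / F, h2⟩ : C) = algebraMap O C r * ⟨x / F, hx⟩ := by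
        apply Subtype.ext
        change (r • x) / F = algebraMap O K r * (x / F)
        rw [h1, Algebra.smul_def]
      rw [h3]
      exact Q.mul_mem_left _ hx'
  obtain ⟨h1, h2⟩ := key F hF
  apply hQ.ne_top
  rw [Ideal.eq_top_iff_one]
  have h3 : (⟨F / F, h1⟩ : C) = 1 := Subtype.ext (div_self hF0)
  rw [← h3]
  exact h2

/-- the étale coordinates of the product -/
lemma et (hETF : S_ETF) (hinj : Function.Injective (algebraMap O K)) [Finite Ω]
    (A : Ω → Subalgebra O K)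
    (hld : ∀ (S : Finset Ω) (ω : Ω), ω ∉ S → (⨆ ω' ∈ S, A ω').LinearDisjoint (A ω))
    (C : Subalgebra O K) (hC : C = ⨆ ω, A ω) (hle : ∀ ω, A ω ≤ C) (Q : Ideal C) [Q.IsPrime]
    (J : Ω → Type) [∀ ω, Finite (J ω)] (u : ∀ ω, J ω → A ω)
    (h : ∀ ω, EtAt (A ω) (Q.comap (Subalgebra.inclusion (hle ω) : A ω →+* C)) (u ω)) :
    EtAt C Q (fun x : (ω : Ω) × J ω => Subalgebra.inclusion (hle x.1) (u x.1 x.2)) := by
  subst hC
  exact hETF O K hinj Ω A hld Q J u h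

theorem local_cond (hCOORD : S_COORD) (hETF : S_ETF) (hIND : S_IND2) (hECET : S_ECET) [Finite Ω]
    (hinj : Function.Injective (algebraMap O K)) (𝔓 : Ideal O) (hmx : 𝔓.IsMaximal) (hne : 𝔓 ≠ ⊥)
    (l : ℕ) (hl : 1 ≤ l) (z : Ω → Fin (2 + 1) → K) (Wc : Ω → WeierstrassCurve O) (B : Set Ω)
    (hec : ∀ ω, EC0 O K (z ω) (Wc ω)) (d : ℕ) (Φ : Ω → K) (hd : 1 ≤ d)
    (hΦ : ∀ ω, Φ ω ∈ FS O (z ω) d) (hΦ0 : ∀ ω, Φ ω ≠ 0)
    (hld : ∀ (S : Finset Ω) (ω : Ω), ω ∉ S →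
      (⨆ ω' ∈ S, AF O (z ω') d (Φ ω')).LinearDisjoint (AF O (z ω) d (Φ ω)))
    (hsm : ∀ ω (q : Ideal (AF O (z ω) d (Φ ω))) [q.IsPrime],
      q.comap (algebraMap O (AF O (z ω) d (Φ ω))) = 𝔓 → Algebra.IsSmoothAt O q)
    (C : Subalgebra O K) (hC : C = ⨆ ω, AF O (z ω) d (Φ ω)) (hrg : IsRegularRing C)
    (Q : Ideal C) [hQp : Q.IsPrime]
    (hQ : ∀ (n : ℕ) (y : C), 0 < n → hm n (y : K) ∈ RW k 𝔓 2 (WE l B) z d Φ → y ∈ Q) :
    ∃ (ι : Type) (_ : Fintype ι) (x : ι → C) (a : ι → ℕ),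
      (∀ i, 0 < a i ∧ hm (a i) (x i : K) ∈ RW k 𝔓 2 (WE l B) z d Φ) ∧
      Ind (fun i => algebraMap C (Localization.AtPrime Q) (x i)) ∧
      ∀ (n : ℕ) (y : C), hm n (y : K) ∈ RW k 𝔓 2 (WE l B) z d Φ →
        algebraMap C (Localization.AtPrime Q) y ∈
          FI (fun i => algebraMap C (Localization.AtPrime Q) (x i)) a n := by
  classical
  obtain ⟨e, rfl⟩ : ∃ e, d = e + 1 := ⟨d - 1, by omega⟩
  have hle : ∀ ω, AF O (z ω) (e + 1) (Φ ω) ≤ C := by
    intro ω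
    rw [hC]
    exact le_iSup (fun ω => AF O (z ω) (e + 1) (Φ ω)) ω
  have hft : Algebra.FiniteType O C := by
    rw [← Subalgebra.fg_iff_finiteType, hC]
    exact iSup_fg _ fun ω => AF_fg _ _ _
  -- the prime of the base
  have h𝔓R : ∀ o ∈ 𝔓, hm ((2 : ℕ) : ℤ) (algebraMap O K o) ∈ RW k 𝔓 2 (WE l B) z (e + 1) Φ :=
    fun o ho => Algebra.subset_adjoin (Or.inl (Or.inl (Or.inr ⟨o, ho, rfl⟩)))
  have hQe : ∀ o ∈ 𝔓, algebraMap O C o ∈ Q := fun o ho => hQ 2 _ two_pos (h𝔓R o ho)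
  have hpr : (Q.comap (algebraMap O C)).IsPrime := Ideal.comap_isPrime _ _
  have hQ𝔓 : Q.comap (algebraMap O C) = 𝔓 := (hmx.eq_of_le hpr.ne_top hQe).symm
  have hlt : 𝔓 ^ 2 < 𝔓 := by
    have := Ideal.pow_right_strictAnti 𝔓 hne hmx.ne_top (show 1 < 2 by norm_num)
    simpa using this
  obtain ⟨π, hπ, hπ2⟩ := Set.exists_of_ssubset hlt
  -- membership
  have hxm : ∀ ω, z ω 0 * (z ω 1 ^ e / Φ ω) ∈ AF O (z ω) (e + 1) (Φ ω) := by
    intro ω
    have h := AF_mem (O := O) (z ω) (e + 1) (Φ ω) 1 e 0 (by omega)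
    rwa [pow_one, pow_zero, mul_one, mul_div_assoc] at h
  have hym : ∀ ω, z ω 1 * (z ω 1 ^ e / Φ ω) ∈ AF O (z ω) (e + 1) (Φ ω) := by
    intro ω
    have h := AF_mem (O := O) (z ω) (e + 1) (Φ ω) 0 (e + 1) 0 (by omega)
    rwa [pow_zero, pow_zero, mul_one, one_mul, pow_succ', mul_div_assoc] at h
  have hwm : ∀ ω, z ω 1 ^ e / Φ ω ∈ AF O (z ω) (e + 1) (Φ ω) := by
    intro ω
    have h := AF_mem (O := O) (z ω) (e + 1) (Φ ω) 0 e 1 (by omega)
    rwa [pow_zero, one_mul, (hec ω).z2, one_pow, mul_one] at h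
  have hxR : ∀ ω ∈ B, hm ((l : ℕ) : ℤ) (z ω 0 * (z ω 1 ^ e / Φ ω)) ∈
      RW k 𝔓 2 (WE l B) z (e + 1) Φ := by
    intro ω hω
    have h := gen_mem (k := k) 𝔓 l B z (e + 1) Φ hω 1 e 0 (by omega)
    rwa [pow_one, pow_zero, mul_one, mul_one, mul_zero, add_zero, mul_div_assoc] at h
  have hwR : ∀ ω ∈ B, hm ((3 * l : ℕ) : ℤ) (z ω 1 ^ e / Φ ω) ∈
      RW k 𝔓 2 (WE l B) z (e + 1) Φ := by
    intro ω hω
    have h := gen_mem (k := k) 𝔓 l B z (e + 1) Φ hω 0 e 1 (by omega)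
    rwa [pow_zero, one_mul, (hec ω).z2, one_pow, mul_one, mul_zero, mul_one, zero_add] at h
  have hxQ : ∀ ω ∈ B, (⟨_, hle ω (hxm ω)⟩ : C) ∈ Q := fun ω hω => hQ l _ hl (hxR ω hω)
  have hwQ : ∀ ω ∈ B, (⟨_, hle ω (hwm ω)⟩ : C) ∈ Q := fun ω hω => hQ (3 * l) _ (by omega) (hwR ω hω)
  have hyQ : ∀ ω ∈ B, (⟨_, hle ω (hym ω)⟩ : C) ∉ Q := by
    intro ω hω
    have h1 : z ω 1 * (z ω 1 ^ e / Φ ω) = z ω 1 ^ (e + 1) / Φ ω := by
      rw [pow_succ', mul_div_assoc]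
    have h2 : z ω 1 ^ (e + 1) / Φ ω ∈ C := by rw [← h1]; exact hle ω (hym ω)
    have h3 := y_notMem (hΦ ω) (hΦ0 ω) (hle ω) Q (fun a ha h0 hm' => ?_) h2
    · have h4 : (⟨_, hle ω (hym ω)⟩ : C) = ⟨_, h2⟩ := Subtype.ext h1
      rw [h4]
      exact h3
    · refine hQ (∑ j, WE l B ω j * a j) _ ?_ ?_
      · rw [wsum l hω]
        rcases Nat.eq_zero_or_pos (a 0) with h5 | h5
        · have h6 : 0 < a 2 := by omega
          positivity
        · positivity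
      · exact Algebra.subset_adjoin (Or.inr ⟨ω, a, ha, rfl⟩)
  -- coordinates
  have hE : ∀ ω, ∃ (J : Type) (_ : Finite J) (u : J → AF O (z ω) (e + 1) (Φ ω)),
      EtAt (AF O (z ω) (e + 1) (Φ ω)) (Q.comap (Subalgebra.inclusion (hle ω) :
        AF O (z ω) (e + 1) (Φ ω) →+* C)) u ∧
      (ω ∈ B → ∃ j, u j = ⟨_, hxm ω⟩) := by
    intro ω
    by_cases hω : ω ∈ B
    · refine ⟨Unit, inferInstance, fun _ => ⟨_, hxm ω⟩, ?_, fun _ => ⟨(), rfl⟩⟩
      refine hECET O K hinj (z ω) (Wc ω) (hec ω) (e + 1) (Φ ω) hd (hΦ ω) (hΦ0 ω) _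
        ⟨_, hxm ω⟩ ⟨_, hym ω⟩ ⟨_, hwm ω⟩ ?_ ?_ ?_ (hxQ ω hω) (hwQ ω hω) (hyQ ω hω)
      · change z ω 0 * (z ω 1 ^ e / Φ ω) = _
        rw [Nat.add_sub_cancel, mul_div_assoc]
      · change z ω 1 * (z ω 1 ^ e / Φ ω) = _
        rw [pow_succ', mul_div_assoc]
      · change z ω 1 ^ e / Φ ω = _
        rw [Nat.add_sub_cancel]
    · have hqp : (Q.comap (Subalgebra.inclusion (hle ω) :
        AF O (z ω) (e + 1) (Φ ω) →+* C)).IsPrime := Ideal.comap_isPrime _ _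
      obtain ⟨r, u, hu, _⟩ := hCOORD O K (AF O (z ω) (e + 1) (Φ ω))
        ((Subalgebra.fg_iff_finiteType _).1 (AF_fg _ _ _))
        (Q.comap (Subalgebra.inclusion (hle ω) : AF O (z ω) (e + 1) (Φ ω) →+* C))
        (hsm ω _ (by rw [← hQ𝔓]; rfl))
      exact ⟨Fin r, inferInstance, u, hu, fun h => absurd h hω⟩
  choose J hJ u hu hj using hE
  choose j hj' using hj
  have hEt := et hETF hinj (fun ω => AF O (z ω) (e + 1) (Φ ω)) hld C hC hle Q J u hu
  have _ : Fintype B := Fintype.ofFinite B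
  have hval : ∀ ω : B, (Subalgebra.inclusion (hle ω.1) (u ω.1 (j ω.1 ω.2)) : C) =
      ⟨_, hle ω.1 (hxm ω.1)⟩ := by
    intro ω
    rw [hj' ω.1 ω.2]
    rfl
  have hInd := hIND O K C hft hrg Q ((ω : Ω) × J ω) B _
    (fun ω : B => (⟨ω.1, j ω.1 ω.2⟩ : (ω : Ω) × J ω)) (fun ω ω' h => by
      apply Subtype.ext
      exact congrArg Sigma.fst h) hEt 𝔓 hmx hne π hπ hπ2 hQ𝔓 (fun ω => by
      change (Subalgebra.inclusion (hle ω.1) (u ω.1 (j ω.1 ω.2)) : C) ∈ Q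
      rw [hval ω]
      exact hxQ ω.1 ω.2)
  refine ⟨Option B, inferInstance, fun i => i.elim (algebraMap O C π)
    fun ω => ⟨_, hle ω.1 (hxm ω.1)⟩, fun i => i.elim 2 fun _ => l, ?_, ?_, ?_⟩
  · intro i
    cases i with
    | none => exact ⟨two_pos, h𝔓R π hπ⟩
    | some ω => exact ⟨hl, hxR ω.1 ω.2⟩
  · convert hInd using 2 with i
    cases i with
    | none => rfl
    | some ω =>
      change _ = algebraMap C _ (Subalgebra.inclusion (hle ω.1) (u ω.1 (j ω.1 ω.2)) : C)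
      rw [hval ω]
      rfl
  · intro n y hy
    obtain ⟨g, hg⟩ : ∃ g : C →+* Localization.AtPrime Q,
      g = algebraMap C (Localization.AtPrime Q) := ⟨_, rfl⟩
    obtain ⟨X, hX⟩ : ∃ X : Option B → Localization.AtPrime Q, X = fun i : Option B => g
      (i.elim (algebraMap O C π) fun ω => ⟨_, hle ω.1 (hxm ω.1)⟩) := ⟨_, rfl⟩
    obtain ⟨w, hw⟩ : ∃ w : Option B → ℕ, w = fun i : Option B => i.elim 2 fun _ => l := ⟨_, rfl⟩
    rw [← hg, ← hX, ← hw]
    have hunit : ∀ c : C, c ∉ Q → IsUnit (g c) := by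
      intro c hc
      rw [hg]
      exact IsLocalization.map_units (M := Q.primeCompl) (Localization.AtPrime Q)
        (⟨c, hc⟩ : Q.primeCompl)
    have hX0 : g (algebraMap O C π) ∈ FI X w 2 := by
      have := FI_gen X w none
      rw [hX, hw] at this ⊢
      exact this
    have hX1 : ∀ ω (hω : ω ∈ B), g ⟨_, hle ω (hxm ω)⟩ ∈ FI X w l := by
      intro ω hω
      have := FI_gen X w (some ⟨ω, hω⟩)
      rw [hX, hw] at this ⊢
      exact this
    let F : ℕ → Set K := fun n => {x | ∃ h : x ∈ C, g ⟨x, h⟩ ∈ FI X w n}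
    have hF1 : ∀ x ∈ C, x ∈ F 0 := by
      intro x hx
      refine ⟨hx, ?_⟩
      rw [FI_zero]
      trivial
    have key := coeff_filt (k := k) F ?_ ?_ ?_ ?_ ?_ _ ?_ (hm n (y : K)) hy n
    · rw [coeff_hm_same, Int.toNat_natCast] at key
      obtain ⟨h1, h2⟩ := key
      exact h2
    · intro n
      refine ⟨C.zero_mem, ?_⟩
      have h1 : (⟨0, C.zero_mem⟩ : C) = 0 := rfl
      rw [h1, map_zero]
      exact Ideal.zero_mem _
    · rintro n x y ⟨hx, hx'⟩ ⟨hy, hy'⟩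
      refine ⟨C.add_mem hx hy, ?_⟩
      have h1 : (⟨x + y, C.add_mem hx hy⟩ : C) = ⟨x, hx⟩ + ⟨y, hy⟩ := rfl
      rw [h1, map_add]
      exact Ideal.add_mem _ hx' hy'
    · rintro m n x y ⟨hx, hx'⟩ ⟨hy, hy'⟩
      refine ⟨C.mul_mem hx hy, ?_⟩
      have h1 : (⟨x * y, C.mul_mem hx hy⟩ : C) = ⟨x, hx⟩ * ⟨y, hy⟩ := rfl
      rw [h1, map_mul]
      exact FI_mul _ _ hx' hy'
    · rintro m n hmn x ⟨hx, hx'⟩
      exact ⟨hx, FI_anti _ _ hmn hx'⟩
    · intro c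
      rw [IsScalarTower.algebraMap_apply k O K]
      exact hF1 _ (C.algebraMap_mem _)
    · intro f hf
      rcases hf with ((hf | ⟨o, ho, hf⟩) | ⟨o, hf⟩) | ⟨ω, a, ha, hf⟩
      · refine ⟨-1, 1, ?_, hf⟩
        have h3 : (-1 : ℤ).toNat = 0 := by decide
        rw [h3]
        exact hF1 _ C.one_mem
      · refine ⟨((2 : ℕ) : ℤ), algebraMap O K o, ?_, hf⟩
        rw [Int.toNat_natCast]
        refine ⟨C.algebraMap_mem o, ?_⟩
        have h4 : (⟨algebraMap O K o, C.algebraMap_mem o⟩ : C) = algebraMap O C o := rfl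
        rw [h4]
        obtain ⟨c, hc⟩ := map_pow_le hπ hπ2 (g.comp (algebraMap O C)) (fun a ha => by
          refine hunit _ fun h => ha ?_
          rw [← hQ𝔓]
          exact h) 1 (by rwa [pow_one] : o ∈ 𝔓 ^ 1)
        rw [pow_one] at hc
        change g (algebraMap O C o) = g (algebraMap O C π) * c at hc
        rw [hc]
        exact Ideal.mul_mem_right _ _ hX0
      · refine ⟨0, algebraMap O K o, ?_, hf⟩
        exact hF1 _ (C.algebraMap_mem o)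
      · refine ⟨_, _, ?_, hf⟩
        rw [Int.toNat_natCast]
        have hmem : (∏ j, z ω j ^ a j) / Φ ω ∈ C :=
          hle ω (Algebra.subset_adjoin ⟨_, ⟨a, ha, rfl⟩, rfl⟩)
        by_cases hω : ω ∈ B
        · refine ⟨hmem, ?_⟩
          rw [wsum l hω]
          have hy1 := hunit _ (hyQ ω hω)
          have hx1 := hX1 ω hω
          have hw1 : g ⟨_, hle ω (hwm ω)⟩ ∈ FI X w (3 * l) := by
            obtain ⟨xC, hxC⟩ : ∃ xC : C, xC = ⟨_, hle ω (hxm ω)⟩ := ⟨_, rfl⟩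
            obtain ⟨yC, hyC⟩ : ∃ yC : C, yC = ⟨_, hle ω (hym ω)⟩ := ⟨_, rfl⟩
            obtain ⟨wC, hwC⟩ : ∃ wC : C, wC = ⟨_, hle ω (hwm ω)⟩ := ⟨_, rfl⟩
            have hx2 := hxQ ω hω
            have hw2 := hwQ ω hω
            have hy2 := hyQ ω hω
            rw [← hxC] at hx2 hx1
            rw [← hwC] at hw2 ⊢
            rw [← hyC] at hy2
            obtain ⟨b, hb⟩ : ∃ b : C, b = yC ^ 2 + algebraMap O C (Wc ω).a₁ * xC * yC +
              algebraMap O C (Wc ω).a₃ * yC * wC - algebraMap O C (Wc ω).a₂ * xC ^ 2 -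
              algebraMap O C (Wc ω).a₄ * xC * wC - algebraMap O C (Wc ω).a₆ * wC ^ 2 := ⟨_, rfl⟩
            have hid : wC * b = xC ^ 3 := by
              rw [hb]
              apply Subtype.ext
              have := weier_id (hec ω) (z ω 1 ^ e / Φ ω)
              rw [hxC, hyC, hwC]
              exact this
            have hbQ : b ∉ Q := by
              intro hb'
              apply hy2
              have h5 : yC ^ 2 = b - (algebraMap O C (Wc ω).a₁ * yC -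
                  algebraMap O C (Wc ω).a₂ * xC - algebraMap O C (Wc ω).a₄ * wC) * xC -
                  (algebraMap O C (Wc ω).a₃ * yC - algebraMap O C (Wc ω).a₆ * wC) * wC := by
                rw [hb]
                ring
              have h6 : yC ^ 2 ∈ Q := by
                rw [h5]
                exact Q.sub_mem (Q.sub_mem hb' (Q.mul_mem_left _ hx2)) (Q.mul_mem_left _ hw2)
              exact hQp.mem_of_pow_mem 2 h6
            have h7 : g wC * g b ∈ FI X w (3 * l) := by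
              rw [← map_mul, hid, map_pow, mul_comm 3 l]
              exact FI_pow X w hx1 3
            exact (Ideal.mul_unit_mem_iff_mem _ (hunit b hbQ)).1 h7
          refine mono_FI X w l (a 0) (a 2) hx1 hw1 hy1 ?_
          rw [← map_pow, ← map_mul, ← map_pow, ← map_pow, ← map_mul, ← map_mul]
          congr 1
          apply Subtype.ext
          have := mono_id (hec ω).z2 (F := Φ ω) (a := a 0) (b := a 1) (c := a 2) (e := e)
            (by rw [← sum3, ha])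
          rw [← prod3] at this
          exact this
        · have h0 : ∑ j, WE l B ω j * a j = 0 := by
            rw [WE_neg l hω]
            simp
          rw [h0]
          exact hF1 _ hmem

end loc

/-- **The graded algebra at a wild prime is regular.** -/
theorem t_ECR : S_WCH → S_RWB → S_COORD → S_ETF → S_IND2 → S_ECET → S_ECR := by
  intro hWCH hRWB hCOORD hETF hIND hECET
  intro k O K Ω _ _ _ _ _ _ _ _ _ _ _ hinj hfto 𝔓 hmx hne l hl z Wc B hec d Φ hd hΦ hΦ0 hld hsm hrg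
  obtain ⟨b1, b2, b3, b4, _, _, b7⟩ := hRWB k O K Ω 𝔓 2 two_pos 2 (WE l B) z d Φ
  have hR : Algebra.FiniteType k (RW k 𝔓 2 (WE l B) z d Φ) := b7 hfto inferInstance
  have hns : IsNoetherianRing (RW k 𝔓 2 (WE l B) z d Φ) := Algebra.FiniteType.isNoetherianRing k _
  obtain ⟨C, hC⟩ : ∃ C : Subalgebra O K, C = CG O z d Φ := ⟨_, rfl⟩
  rw [← hC] at b1 b2 hrg
  refine hWCH k K (RW k 𝔓 2 (WE l B) z d Φ) hns b3 b4 (fun n x h => b1 _ (b2 _ _ h)) C
    (C.val : C →+* K) Subtype.val_injective ?_ hrg ?_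
  · intro y
    constructor
    · intro h
      exact ⟨⟨y, b2 _ _ h⟩, rfl⟩
    · rintro ⟨c, rfl⟩
      exact b1 _ c.2
  · intro Q hQp hQ
    exact local_cond hCOORD hETF hIND hECET hinj 𝔓 hmx hne l hl z Wc B hec d Φ hd hΦ hΦ0 hld hsm
      C hC hrg Q hQ

end Pool.Agent.Y448.H
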